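import Mathlib

/-!
Lieb-Thirring inequalities in all dimensions (MP_4c716f_mp): definitions.
-/

set_option autoImplicit false

open MeasureTheory
open scoped ComplexConjugate ComplexOrder

namespace Pool.Agent.LTD

/-- `ℝ^d` with Lebesgue measure `volume`. -/
abbrev R (d : ℕ) : Type := Fin d → ℝ

/-- The `i`-th partial derivative. -/
noncomputable def pd {d : ℕ} (i : Fin d) (φ : R d → ℂ) (x : R d) : ℂ :=
  fderiv ℝ φ x (Pi.single i 1)

/-- Test functions: smooth with compact support. -/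
structure Test {d : ℕ} (φ : R d → ℂ) : Prop where
  smooth : ContDiff ℝ (⊤ : ℕ∞) φ
  supp : HasCompactSupport φ

/-- `u` is in `H¹(ℝ^d)` with weak gradient `g`. -/
structure H1 {d : ℕ} (u : R d → ℂ) (g : Fin d → R d → ℂ) : Prop where
  mem : MemLp u 2 volume
  gmem : ∀ i, MemLp (g i) 2 volume
  weak : ∀ (i : Fin d) (φ : R d → ℂ), Test φ → ∫ x, u x * pd i φ x = - ∫ x, g i x * φ x

/-- `u` is an eigenfunction, with eigenvalue `E`, of the self-adjoint operator `-Δ + V` defined by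
the closed quadratic form `∫ (|∇u|² + V |u|²)` on `H¹(ℝ^d)`. -/
def Eigen {d : ℕ} (V : R d → ℝ) (E : ℝ) (u : R d → ℂ) : Prop :=
  ∃ g : Fin d → R d → ℂ, H1 u g ∧ ∀ (v : R d → ℂ) (h : Fin d → R d → ℂ), H1 v h →
    (∫ x, ∑ i, g i x * conj (h i x)) + (∫ x, (V x : ℂ) * (u x * conj (v x))) =
      E * ∫ x, u x * conj (v x)

/-- The semiclassical constant `L^cl_{γ,d}`. -/
noncomputable def Lcl (γ : ℝ) (d : ℕ) : ℝ :=
  Real.Gamma (γ + 1) / ((4 * Real.pi) ^ ((d : ℝ) / 2) * Real.Gamma (γ + 1 + d / 2))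

/-- The Lieb-Thirring inequality with constant `C`: for every real `V ∈ L^{γ+d/2}(ℝ^d)` and all
negative eigenvalues of `-Δ + V`, counted with multiplicity (every finite orthonormal system of
eigenfunctions with negative eigenvalues), `∑ |E_n|^γ ≤ C ∫ (V₋)^{γ+d/2}`. -/
def LTIneq (γ : ℝ) (d : ℕ) (C : ℝ) : Prop :=
  ∀ V : R d → ℝ, MemLp V (ENNReal.ofReal (γ + d / 2)) volume →
    ∀ (N : ℕ) (E : Fin N → ℝ) (u : Fin N → R d → ℂ), (∀ n, E n < 0) →
      (∀ n, Eigen V (E n) (u n)) →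
      (∀ m n, ∫ x, u m x * conj (u n x) = if m = n then 1 else 0) →
      ∑ n, |E n| ^ γ ≤ C * ∫ x, (max (-V x) 0) ^ (γ + d / 2)

/-! ### Working notions -/

/-- Bounded nonnegative potentials with bounded support. -/
structure Pot {d : ℕ} (W : R d → ℝ) : Prop where
  meas : Measurable W
  nonneg : ∀ x, 0 ≤ W x
  bdd : ∃ B, ∀ x, W x ≤ B
  supp : ∃ r, ∀ x, r < ‖x‖ → W x = 0

/-- The quadratic form of `-Δ - W`. -/
noncomputable def q {d : ℕ} (W : R d → ℝ) (φ : R d → ℂ) : ℝ :=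
  (∫ x, ∑ i, ‖pd i φ x‖ ^ 2) - ∫ x, W x * ‖φ x‖ ^ 2

/-- Gram matrix `∫ φ_i conj φ_j`. -/
noncomputable def gm {d : ℕ} {ι : Type} (φ : ι → R d → ℂ) : Matrix ι ι ℂ :=
  Matrix.of fun i j => ∫ x, φ i x * conj (φ j x)

/-- The slice `y ↦ φ (x, y)`. -/
def sl {d : ℕ} {α : Type} (φ : R (d + 1) → α) (x : ℝ) : R d → α := fun y => φ (Fin.cons x y)

/-- Entrywise integral of a matrix valued function. -/
noncomputable def mint {ι : Type} (P : ℝ → Matrix ι ι ℂ) : Matrix ι ι ℂ :=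
  Matrix.of fun i j => ∫ x, P x i j

/-- Real part of the trace. -/
noncomputable def rtr {ι : Type} [Fintype ι] (A : Matrix ι ι ℂ) : ℝ := A.trace.re

/-- The data of the one dimensional inequalities: `P = Ψ Ψ*` (Gram matrices of a finite family of
Hilbert space valued functions of `x`), `M = Ψ Ψ'*`, `K = |Ψ'|²`. -/
structure Core {ι : Type} [Fintype ι] [DecidableEq ι] (P M : ℝ → Matrix ι ι ℂ) (K : ℝ → ℝ) :
    Prop where
  psd : ∀ x, (P x).PosSemidef
  der : ∀ x i j, HasDerivAt (fun y => P y i j) (M x i j + conj (M x j i)) x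
  contM : ∀ i j, Continuous fun x => M x i j
  contK : Continuous K
  supp : ∃ r, ∀ x, r ≤ |x| → P x = 0 ∧ M x = 0 ∧ K x = 0
  cs : ∀ x (Z : Matrix ι ι ℂ), 0 ≤ K x - 2 * rtr (Z * M x) + rtr (Z * P x * Z.conjTranspose)

/-- The slices of a function as a function with values in `L²(ℝ^d)`. -/
noncomputable def SL {d : ℕ} (φ : R (d + 1) → ℂ) (x : ℝ) : Lp ℂ 2 (volume : Measure (R d)) :=
  open Classical in if h : MemLp (sl φ x) 2 volume then h.toLp (sl φ x) else 0

end Pool.Agent.LTD
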