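import Pool.Agent.LTD.Defs

/-!
Lieb-Thirring inequalities in all dimensions (MP_4c716f_mp): statements of the modules.
See README.md.
-/

set_option autoImplicit false

open MeasureTheory Filter Topology
open scoped ComplexConjugate ComplexOrder

namespace Pool.Agent.LTD

/-! ### Calculus -/

/-- Differentiability of the solution of a Sylvester equation. -/
def SylStmt : Prop := ∀ (N : ℕ) (c : ℝ) (T T' P P' : ℝ → Matrix (Fin N) (Fin N) ℂ),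
  (∀ x i j, HasDerivAt (fun y => T y i j) (T' x i j) x) →
  (∀ x i j, HasDerivAt (fun y => P y i j) (P' x i j) x) →
  (∀ i j, Continuous fun x => T' x i j) → (∀ i j, Continuous fun x => P' x i j) →
  (∀ x (Z : Matrix (Fin N) (Fin N) ℂ), T x * Z + Z * T x - (c : ℂ) • Z = 0 → Z = 0) →
  ∃ Z Z' : ℝ → Matrix (Fin N) (Fin N) ℂ,
    (∀ x, T x * Z x + Z x * T x - (c : ℂ) • Z x = P x) ∧
    (∀ x i j, HasDerivAt (fun y => Z y i j) (Z' x i j) x) ∧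
    (∀ x, T x * Z' x + Z' x * T x - (c : ℂ) • Z' x = P' x - T' x * Z x - Z x * T' x) ∧
    ∀ i j, Continuous fun x => Z' x i j

/-- **K32.** The sharp one dimensional kinetic inequality for `γ = 3/2`. -/
def K32Stmt : Prop := ∀ (N : ℕ) (P M : ℝ → Matrix (Fin N) (Fin N) ℂ)
  (K : ℝ → ℝ), Core P M K → ∀ C : ℝ, 0 < C →
  C * ∫ x, rtr (P x * P x) ≤ (∫ x, K x) + C ^ 2 / 12 * rtr (mint P * mint P * mint P)

/-! ### Slices and diagonalisation -/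

/-- Slices as differentiable functions with values in `L²(ℝ^d)`. -/
def SlLpStmt : Prop := ∀ (d : ℕ) (φ : R (d + 1) → ℂ), Test φ →
  Test (pd 0 φ) ∧ (∀ x, (SL φ x : R d → ℂ) =ᵐ[volume] sl φ x) ∧
  (∀ x, HasDerivAt (SL φ) (SL (pd 0 φ) x) x) ∧ (∃ r : ℝ, ∀ x, r ≤ |x| → SL φ x = 0) ∧
  ∀ ψ : R (d + 1) → ℂ, Test ψ → ∀ x,
    inner ℂ (SL φ x) (SL ψ x) = ∫ y : R d, sl ψ x y * conj (sl φ x y)

/-- Fubini for products of test functions. -/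
def SlFubStmt : Prop := ∀ (d : ℕ) (φ ψ : R (d + 1) → ℂ), Test φ → Test ψ →
  ∫ x, (∫ y : R d, sl φ x y * conj (sl ψ x y)) = ∫ z, φ z * conj (ψ z)

/-- Slices of test functions give the data of the one dimensional inequalities. -/
def SliceCoreStmt : Prop := ∀ (d N : ℕ) (φ : Fin N → R (d + 1) → ℂ), (∀ i, Test (φ i)) →
  Core (fun x => gm fun i => sl (φ i) x)
    (fun x => Matrix.of fun i j => ∫ y : R d, sl (φ i) x y * conj (sl (pd 0 (φ j)) x y))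
    (fun x => ∑ j, ∫ y : R d, ‖sl (pd 0 (φ j)) x y‖ ^ 2) ∧
  mint (fun x => gm fun i => sl (φ i) x) = gm φ

/-- **K1** for slices of test functions (from `LT.KinStmt` and `LT.PosStmt` with `H = L²(ℝ^d)`). -/
def K1SlStmt : Prop := ∀ (d N : ℕ) (φ : Fin N → R (d + 1) → ℂ), (∀ i, Test (φ i)) →
  (1 - gm φ).PosSemidef →
  Real.pi ^ 2 / 4 * ∫ x, rtr ((gm fun i => sl (φ i) x) * (gm fun i => sl (φ i) x) *
    (gm fun i => sl (φ i) x)) ≤ ∫ x, ∑ j, ∫ y : R d, ‖sl (pd 0 (φ j)) x y‖ ^ 2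

/-- Slices of the quadratic form. -/
def SliceQStmt : Prop := ∀ (d : ℕ) (φ : R (d + 1) → ℂ) (W : R (d + 1) → ℝ), Test φ → Pot W →
  (∀ x, Test (sl φ x)) ∧ (∀ x, Pot (sl W x)) ∧
  Integrable (fun x => ∫ y : R d, ‖sl (pd 0 φ) x y‖ ^ 2) volume ∧
  Integrable (fun x => q (sl W x) (sl φ x)) volume ∧
  q W φ = (∫ x, ∫ y : R d, ‖sl (pd 0 φ) x y‖ ^ 2) + ∫ x, q (sl W x) (sl φ x)

/-- Slices of the potential. -/
def SlicePStmt : Prop := ∀ (d : ℕ) (W : R (d + 1) → ℝ) (p : ℝ), 0 < p → Pot W →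
  Integrable (fun x => ∫ y : R d, sl W x y ^ p) volume ∧
  ∫ x, (∫ y : R d, sl W x y ^ p) = ∫ z, W z ^ p

/-- Diagonalisation of the Gram matrix of a finite family of test functions. -/
def DiagStmt : Prop := ∀ (d N : ℕ) (f : Fin N → R d → ℂ), (∀ i, Test (f i)) →
  ∃ (m : ℕ) (l : Fin m → ℝ) (χ : Fin m → R d → ℂ), (∀ a, 0 < l a) ∧
    (∀ a, Test (χ a)) ∧ gm χ = 1 ∧
    (∀ W, Pot W → ∑ i, q W (f i) = ∑ a, l a * q W (χ a)) ∧
    rtr (gm f * gm f) = ∑ a, l a ^ 2 ∧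
    rtr (gm f * gm f * gm f) = ∑ a, l a ^ 3

/-! ### The recursion over the dimension -/

/-- The inequality with exponent `s` in dimension `d` and the semiclassical constant, for finite
orthonormal families of test functions. -/
def ASt (s : ℝ) (d : ℕ) : Prop := ∀ (N : ℕ) (φ : Fin N → R d → ℂ),
  (∀ i, Test (φ i)) → gm φ = 1 → ∀ W, Pot W →
  ∑ i, (max (-q W (φ i)) 0) ^ s ≤ Lcl s d * ∫ x, W x ^ (s + d / 2)

/-- The inequality with exponent `1` and the constant `2/√3` for finite families of test functions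
with Gram matrix at most `1`. -/
def BSt (d : ℕ) : Prop := ∀ (N : ℕ) (φ : Fin N → R d → ℂ),
  (∀ i, Test (φ i)) → (1 - gm φ).PosSemidef → ∀ W, Pot W →
  ∑ i, (-q W (φ i)) ≤ 2 / √3 * Lcl 1 d * ∫ x, W x ^ (1 + (d : ℝ) / 2)

/-- Layer cake formula. -/
def BetaStmt : Prop := ∀ (s r e : ℝ), 0 < s → 0 < r → 0 ≤ e →
  IntegrableOn (fun t => (max (e - t) 0) ^ s * t ^ (r - 1)) (Set.Ioi 0) volume ∧
  ∫ t in Set.Ioi (0 : ℝ), (max (e - t) 0) ^ s * t ^ (r - 1) =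
    e ^ (s + r) * (Real.Gamma r * Real.Gamma (s + 1) / Real.Gamma (s + r + 1))

/-- Constants. -/
def LclStmt : Prop := (∀ s : ℝ, 0 < s → Lcl s 0 = 1) ∧
  (∀ d : ℕ, 3 / 16 * Lcl 2 d = Lcl (3 / 2) (d + 1)) ∧
  (∀ d : ℕ, 4 / (3 * √3 * Real.pi) * Lcl (3 / 2) d = 2 / √3 * Lcl 1 (d + 1)) ∧
  (∀ (s r : ℝ) (d : ℕ), 0 < s → 0 < r →
    Lcl (s + r) d * (Real.Gamma r * Real.Gamma (s + 1) / Real.Gamma (s + r + 1)) =
      Lcl s d * (Real.Gamma r * Real.Gamma (s + d / 2 + 1) / Real.Gamma (s + d / 2 + r + 1))) ∧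
  (∀ (s : ℝ) (d : ℕ), 0 < s → 0 < Lcl s d) ∧
  2 / √3 * Lcl 1 1 = 4 / (3 * √3 * Real.pi)

def BaseStmt : Prop := ASt (3 / 2) 0

def ALStmt : Prop := ∀ d, ASt (3 / 2) d → ASt 2 d

def Lift32Stmt : Prop := ∀ d, ASt 2 d → ASt (3 / 2) (d + 1)

def Lift1Stmt : Prop := ∀ d, ASt (3 / 2) d → BSt (d + 1)

/-! ### From test functions to eigenfunctions -/

/-- `BSt` for orthonormal families in `H¹`. -/
def HSt (d : ℕ) : Prop := ∀ (ι : Type) [Fintype ι] [DecidableEq ι] (u : ι → R d → ℂ)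
  (g : ι → Fin d → R d → ℂ), (∀ n, H1 (u n) (g n)) →
  (∀ m n, ∫ x, u m x * conj (u n x) = if m = n then 1 else 0) → ∀ W, Pot W →
  ∑ n, ((∫ x, W x * ‖u n x‖ ^ 2) - ∫ x, ∑ i, ‖g n i x‖ ^ 2) ≤
    2 / √3 * Lcl 1 d * ∫ x, W x ^ (1 + (d : ℝ) / 2)

def ApproxStmt : Prop := ∀ d, BSt d → HSt d

/-- Powers of truncated potentials are integrable. -/
def TruncStmt : Prop := ∀ (d : ℕ) (γ : ℝ), 1 ≤ γ → ∀ V : R d → ℝ,
  MemLp V (ENNReal.ofReal (γ + d / 2)) volume → ∀ t : ℝ, 0 ≤ t → (0 < t ∨ γ = 1) →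
  Integrable (fun x => (max (|V x| - t) 0) ^ (1 + (d : ℝ) / 2)) volume ∧
  Integrable (fun x => (max (-V x - t) 0) ^ (1 + (d : ℝ) / 2)) volume

/-- Truncation: `HSt` for unbounded potentials (monotone convergence). -/
def HTStmt : Prop := ∀ d, HSt d → ∀ (ι : Type) [Fintype ι] [DecidableEq ι] (u : ι → R d → ℂ)
  (g : ι → Fin d → R d → ℂ), (∀ n, H1 (u n) (g n)) →
  (∀ m n, ∫ x, u m x * conj (u n x) = if m = n then 1 else 0) →
  ∀ W : R d → ℝ, AEStronglyMeasurable W volume → (∀ x, 0 ≤ W x) →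
  Integrable (fun x => W x ^ (1 + (d : ℝ) / 2)) volume →
  (∀ n, Integrable (fun x => W x * ‖u n x‖ ^ 2) volume) ∧
  ∑ n, ((∫ x, W x * ‖u n x‖ ^ 2) - ∫ x, ∑ i, ‖g n i x‖ ^ 2) ≤
    2 / √3 * Lcl 1 d * ∫ x, W x ^ (1 + (d : ℝ) / 2)

/-- The inequality at height `t`. -/
def HeightStmt : Prop := ∀ (d : ℕ), HSt d → ∀ (γ : ℝ), 1 ≤ γ → ∀ V : R d → ℝ,
  MemLp V (ENNReal.ofReal (γ + d / 2)) volume →
  ∀ (N : ℕ) (E : Fin N → ℝ) (u : Fin N → R d → ℂ), (∀ n, E n < 0) → (∀ n, Eigen V (E n) (u n)) →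
  (∀ m n, ∫ x, u m x * conj (u n x) = if m = n then 1 else 0) →
  ∀ t : ℝ, 0 ≤ t → (0 < t ∨ γ = 1) →
  ∑ n, max (|E n| - t) 0 ≤
    2 / √3 * Lcl 1 d * ∫ x, (max (-V x - t) 0) ^ (1 + (d : ℝ) / 2)

def TopStmt : Prop := ∀ (d : ℕ), HSt d → ∀ (γ : ℝ), 1 ≤ γ → LTIneq γ d (2 / √3 * Lcl γ d)

end Pool.Agent.LTD
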